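import Pool.Agent.E8helper15.FR.EqB

/-!
# The polynomial Freiman-Ruzsa conjecture is decided by dense sets of lattice points

The conjecture over the integers (and over all torsion-free groups) is equivalent to its case of
sets of density `exp (- O((log K) ^ (1 + ε)))` in very proper convex progressions of dimension
`O(log K)`, and follows from the same case for sets of lattice points in symmetric convex bodies.
-/

set_option autoImplicit false
open Finset
open scoped Pointwise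

namespace Pool.Agent.Results.MP_626a77_co.DenseCaseDecidesH15

/-- The conclusion of the polynomial Freiman-Ruzsa conjecture for the set `A` with the constant `C`:
`A` is covered by at most `C K ^ C` translates of a centred convex progression of dimension at most
`C (1 + log K)` and volume at most `|A|`. -/
def Concl {Γ : Type*} [AddCommGroup Γ] (C K : ℝ) (A : Finset Γ) : Prop :=
  ∃ (d : ℕ) (B : Set (Fin d → ℝ)) (v : Fin d → Γ) (T : Finset Γ),
    (d : ℝ) ≤ C * (1 + Real.log K) ∧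
    Convex ℝ B ∧ IsCompact B ∧ (interior B).Nonempty ∧ (∀ x ∈ B, -x ∈ B) ∧
    {x : Fin d → ℤ | (fun i => (x i : ℝ)) ∈ B}.ncard ≤ A.card ∧
    (T.card : ℝ) ≤ C * K ^ C ∧
    ∀ a ∈ A, ∃ t ∈ T, ∃ x : Fin d → ℤ, (fun i => (x i : ℝ)) ∈ B ∧ a = t + ∑ i, x i • v i

/-- The set `A` lies in a translate of the convex progression given by a symmetric convex body `B`
of dimension at most `2100 M log (2 K)` with at most `exp (1000 M (log (2 K)) ^ (1 + 6 / M)) |A|`
lattice points, and even the lattice points of `8 B` have distinct images. -/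
def Dense {Γ : Type*} [AddCommGroup Γ] (M : ℕ) (K : ℝ) (A : Finset Γ) : Prop :=
  ∃ (d : ℕ) (B : Set (Fin d → ℝ)) (v : Fin d → Γ) (t : Γ),
    (d : ℝ) ≤ 2100 * M * Real.log (2 * K) ∧
    Convex ℝ B ∧ IsCompact B ∧ (interior B).Nonempty ∧ (∀ x ∈ B, -x ∈ B) ∧
    Set.InjOn (fun x : Fin d → ℤ => ∑ i, x i • v i)
      {x : Fin d → ℤ | (fun i => (x i : ℝ)) ∈ (8 : ℝ) • B} ∧
    ({x : Fin d → ℤ | (fun i => (x i : ℝ)) ∈ B}.ncard : ℝ) ≤
      Real.exp (1000 * M * Real.log (2 * K) ^ (1 + (6 : ℝ) / M)) * A.card ∧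
    ∀ a ∈ A, ∃ x : Fin d → ℤ, (fun i => (x i : ℝ)) ∈ B ∧ a = t + ∑ i, x i • v i

/-- The set `S ⊆ ℤ ^ n` lies in a symmetric convex body with at most
`exp (1000 M (log (2 K)) ^ (1 + 6 / M)) |S|` lattice points. -/
def DenseInBody (M : ℕ) (K : ℝ) {n : ℕ} (S : Finset (Fin n → ℤ)) : Prop :=
  ∃ B : Set (Fin n → ℝ),
    Convex ℝ B ∧ IsCompact B ∧ (interior B).Nonempty ∧ (∀ x ∈ B, -x ∈ B) ∧
    ({x : Fin n → ℤ | (fun i => (x i : ℝ)) ∈ B}.ncard : ℝ) ≤
      Real.exp (1000 * M * Real.log (2 * K) ^ (1 + (6 : ℝ) / M)) * S.card ∧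
    ∀ s ∈ S, (fun i => (s i : ℝ)) ∈ B

/-- Let `M ≥ 12`.
(1) In every torsion-free abelian group `Γ` (for `Γ = ℤ` the left side is the conjecture) the
polynomial Freiman-Ruzsa conjecture is equivalent to its restriction to the sets with `Dense M K A`.
(2) The conjecture holds in all torsion-free abelian groups, with one constant, if and only if it
holds for the sets `S` of lattice points in `ℤ ^ n` with `n ≤ 2100 M log (2 K)` and
`DenseInBody M K S`. -/
theorem result (M : ℕ) (hM : 12 ≤ M) :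
    (∀ (Γ : Type) [AddCommGroup Γ] [DecidableEq Γ],
      (∀ (n : ℕ) (x : Γ), n ≠ 0 → n • x = 0 → x = 0) →
      ((∃ C : ℝ, 0 < C ∧ ∀ (K : ℝ) (A : Finset Γ), A.Nonempty →
          ((A + A).card : ℝ) ≤ K * (A.card : ℝ) → Concl C K A) ↔
       (∃ C : ℝ, 0 < C ∧ ∀ (K : ℝ) (A : Finset Γ), A.Nonempty →
          ((A + A).card : ℝ) ≤ K * (A.card : ℝ) → Dense M K A → Concl C K A))) ∧
    ((∃ C : ℝ, 0 < C ∧ ∀ (Γ : Type) [AddCommGroup Γ] [DecidableEq Γ],
        (∀ (n : ℕ) (x : Γ), n ≠ 0 → n • x = 0 → x = 0) →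
        ∀ (K : ℝ) (A : Finset Γ), A.Nonempty →
          ((A + A).card : ℝ) ≤ K * (A.card : ℝ) → Concl C K A) ↔
     (∃ C : ℝ, 0 < C ∧ ∀ (n : ℕ) (K : ℝ) (S : Finset (Fin n → ℤ)), S.Nonempty →
        ((S + S).card : ℝ) ≤ K * (S.card : ℝ) → (n : ℝ) ≤ 2100 * M * Real.log (2 * K) →
        DenseInBody M K S → Concl C K S)) := by
  refine ⟨?_, ?_, ?_⟩
  · intro Γ _ _ htf
    exact E8helper15.FR.pfr_iff htf hM
  · rintro ⟨C, hC, h⟩
    refine ⟨C, hC, fun n K S hS hK _ _ => h (Fin n → ℤ) ?_ K S hS hK⟩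
    intro m x hm hx
    funext i
    have h1 := congrFun hx i
    rw [Pi.smul_apply, Pi.zero_apply, nsmul_eq_mul] at h1
    rcases mul_eq_zero.1 h1 with h2 | h2
    · exact absurd (by exact_mod_cast h2) hm
    · exact h2
  · rintro ⟨C, hC, h⟩
    refine ⟨Real.exp (1 + 19000 * M + C + 20000 * M * C + 7 * (C * (1 + 20000 * M))),
      Real.exp_pos _, fun Γ _ _ htf K A hA hK => ?_⟩
    exact E8helper15.FR.pfr_lattice hM hC (fun n K S hS h1 h2 h3 => h n K S hS h1 h2 h3) htf hA hK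

end Pool.Agent.Results.MP_626a77_co.DenseCaseDecidesH15
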